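import Mathlib
import Pool.Agent.Q210.RJ.Mod

/-!
# MP_4f24d6_pr: a time change for which the graph supports no Rajchman measure
-/

open Filter Topology Set MeasureTheory ProbabilityTheory
open scoped NNReal ENNReal

universe u

namespace Pool.Agent.Results.MP_4f24d6_pr.NoRajchman

noncomputable section

/-- A Rajchman measure on the plane: a nonzero finite Borel measure whose Fourier transform
`ξ ↦ ∫ exp(-2πi ⟨ξ, x⟩) dμ(x)` tends to zero at infinity. -/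
def IsRajchman (μ : Measure (ℝ × ℝ)) : Prop :=
  IsFiniteMeasure μ ∧ μ ≠ 0 ∧
    Tendsto (fun ξ : ℝ × ℝ =>
      ∫ x, Complex.exp (Complex.I * ((-(2 * Real.pi * (ξ.1 * x.1 + ξ.2 * x.2)) : ℝ) : ℂ)) ∂μ)
      (cocompact (ℝ × ℝ)) (𝓝 0)

/-- The graph over `[0,1]` of `t ↦ B_{V(t)}(ω)`. -/
def graph {Ω : Type u} (B : ℝ≥0 → Ω → ℝ) (V : ℝ → ℝ) (ω : Ω) : Set (ℝ × ℝ) :=
  (fun t : ℝ => (t, B (V t).toNNReal ω)) '' Icc (0 : ℝ) 1

/-- There is a continuous strictly increasing `V : [0,1] → [0,∞)` (which takes values in `[0,1]`)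
such that for every Brownian motion `B` almost surely no Rajchman measure has its support in the
graph of `t ↦ B_{V(t)}` over `[0,1]`. -/
theorem result : ∃ V : ℝ → ℝ, ContinuousOn V (Icc 0 1) ∧ StrictMonoOn V (Icc 0 1) ∧
    (∀ t ∈ Icc (0 : ℝ) 1, 0 ≤ V t) ∧
    ∀ (Ω : Type u) (_ : MeasurableSpace Ω) (P : Measure Ω) (B : ℝ≥0 → Ω → ℝ),
      IsBrownianReal B P →
      ∀ᵐ ω ∂P, ∀ μ : Measure (ℝ × ℝ), IsRajchman μ → ¬ (μ.support ⊆ graph B V ω) := by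
  obtain ⟨ε, hε, h⟩ := Pool.Agent.Q210.RJ.exists_mod.{u}
  obtain ⟨V, hV0, hV1, hV2, hV3⟩ := Pool.Agent.Q210.RJ.exists_flat
    (ε := fun m => ε m / 2) (fun m => half_pos (hε m))
  refine ⟨V, hV0, hV1, fun t ht => (hV2 t ht).1, fun Ω mΩ P B hB => ?_⟩
  filter_upwards [Pool.Agent.Q210.RJ.ae_mod hε hB (h Ω mΩ P B hB)] with ω hω
  rintro μ ⟨hfin, hne, hR⟩ hsupp
  refine Pool.Agent.Q210.RJ.no_rajchman (b := fun s => B s.toNNReal ω) hV1 hV2 hV3 hω μ hne ?_ hR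
  have : ∀ᵐ p ∂μ, p ∈ μ.support := Measure.support_mem_ae
  filter_upwards [this] with p hp
  obtain ⟨t, ht, rfl⟩ := hsupp hp
  exact ⟨ht, rfl⟩

end

end Pool.Agent.Results.MP_4f24d6_pr.NoRajchman
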